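import Pool.Agent.H.MP_5fd2c3_al.Heis

set_option autoImplicit false
set_option maxHeartbeats 400000

namespace Pool.Agent.H.MP_5fd2c3_al

open AddMonoidAlgebra

abbrev Lam := AddMonoidAlgebra k (ℤ × ℤ)

noncomputable def br (G : Type) [AddCommGroup G] : AddMonoidAlgebra k G →+* AddMonoidAlgebra k G :=
  mapDomainRingHom k (negAddMonoidHom : G →+ G)

theorem br_single {G : Type} [AddCommGroup G] (g : G) : br G (single g 1) = single (-g) 1 :=
  mapDomain_single

def red (N : ℕ) : ℤ × ℤ →+ ZMod N × ZMod N := (Int.castAddHom _).prodMap (Int.castAddHom _)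

theorem nilp (j : ℕ) : ∃ I : Ideal (AddMonoidAlgebra k (ZMod (2 ^ j) × ZMod (2 ^ j))),
    I ^ 2 ^ (j + 1) = ⊥ ∧ ∀ g, single g 1 - 1 ∈ I := by
  have a : ∀ g : ZMod (2 ^ j) × ZMod (2 ^ j),
      Ideal.span {(single g 1 - 1 : AddMonoidAlgebra k _)} ^ 2 ^ j = ⊥ := fun g => by
    rw [Ideal.span_singleton_pow, frob (Commute.all _ _), single_pow, one_pow, one_pow,
      show 2 ^ j • g = 0 by
        ext <;> simp only [Prod.smul_fst, Prod.smul_snd] <;> rw [nsmul_eq_mul, ZMod.natCast_self, zero_mul] <;> rfl, ← one_def, sub_self]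
    simp
  refine ⟨Ideal.span {single (1, 0) 1 - 1} ⊔ Ideal.span {single (0, 1) 1 - 1}, eq_bot_iff.2 ?_, fun g => ?_⟩
  · rw [pow_succ, mul_two]
    exact Ideal.sup_pow_add_le_pow_sup_pow.trans (by rw [a, a]; simp)
  · have : g = g.1.val • (1, 0) + g.2.val • (0, 1) := by ext <;> simp
    rw [show (single g 1 : AddMonoidAlgebra k _) = single (1, 0) 1 ^ g.1.val * single (0, 1) 1 ^ g.2.val by
      rw [single_pow, single_pow, single_mul_single, ← this]; simp]
    generalize (single (1, 0) 1 : AddMonoidAlgebra k (ZMod (2 ^ j) × ZMod (2 ^ j))) = x,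
      (single (0, 1) 1 : AddMonoidAlgebra k (ZMod (2 ^ j) × ZMod (2 ^ j))) = y
    rw [show x ^ g.1.val * y ^ g.2.val - 1 = (x ^ g.1.val - 1) * y ^ g.2.val + (y ^ g.2.val - 1) by ring]
    exact add_mem (Ideal.mem_sup_left (Ideal.mul_mem_right _ _ (Ideal.mem_span_singleton.2
      (sub_one_dvd_pow_sub_one _ _)))) (Ideal.mem_sup_right (Ideal.mem_span_singleton.2
      (sub_one_dvd_pow_sub_one _ _)))

theorem coeff_sm (g h : ℤ × ℤ) (φ : Lam) : (single g 1 * φ).coeff h = φ.coeff (h - g) := by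
  rw [coeff_single_mul_eq_mul_coeff (h - g), one_mul]
  intro m _
  constructor <;> rintro rfl <;> simp

def pt (δ : ℕ) {M : ℕ} (i : Fin M × Fin M) : ℤ × ℤ := ((δ * (i.1.1 + 1) : ℕ), (δ * (i.2.1 + 1) : ℕ))

theorem many {φ : Lam} (hφ : φ ≠ 0) : ∃ δ : ℕ, ∀ M N : ℕ, 2 * δ * (M + 1) < N →
    LinearIndependent k fun i : Fin M × Fin M => mapDomainRingHom k (red N)
      ((single (pt δ i) 1 - single (-pt δ i) 1) * φ) := by
  classical
  obtain ⟨a, ha⟩ := Finsupp.support_nonempty_iff.2 (coeff_eq_zero.not.2 hφ)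
  obtain ⟨ρ, hρ⟩ := (φ.coeff.support.image fun p => p.1.natAbs + p.2.natAbs).bddAbove
  have hρ : ∀ p, φ.coeff p ≠ 0 → p.1.natAbs + p.2.natAbs ≤ ρ := fun p hp =>
    hρ (Finset.mem_coe.2 (Finset.mem_image_of_mem _ (Finsupp.mem_support_iff.2 hp)))
  have a1 := Finsupp.mem_support_iff.1 ha
  have a2 := hρ a a1
  refine ⟨2 * ρ + 1, fun M N hN => ?_⟩
  set δ := 2 * ρ + 1 with hδ
  let B : Set (ℤ × ℤ) := {p | p.1.natAbs ≤ δ * M + ρ ∧ p.2.natAbs ≤ δ * M + ρ}
  have inj : Set.InjOn (red N) B := fun p hp q hq e => by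
    have : ∀ x y : ℤ, x.natAbs ≤ δ * M + ρ → y.natAbs ≤ δ * M + ρ → (x : ZMod N) = y → x = y :=
      fun x y a b e => by
        rw [ZMod.intCast_eq_intCast_iff_dvd_sub] at e
        have := Int.eq_zero_of_abs_lt_dvd e (by
          rw [mul_assoc, mul_add] at hN
          rw [abs_lt]; omega)
        omega
    exact Prod.ext (this _ _ hp.1 hq.1 (congrArg Prod.fst e)) (this _ _ hp.2 hq.2 (congrArg Prod.snd e))
  have bd : ∀ i : Fin M, δ ≤ δ * (i + 1) ∧ δ * (i + 1) ≤ δ * M := fun i =>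
    ⟨Nat.le_mul_of_pos_right _ (by omega), Nat.mul_le_mul_left _ i.2⟩
  have sp : ∀ i j : Fin M, i = j ∨ δ * (i + 1) + δ ≤ δ * (j + 1) ∨ δ * (j + 1) + δ ≤ δ * (i + 1) := fun i j => by
    obtain l | l | l := lt_trichotomy i j
    · exact .inr (.inl (Nat.mul_le_mul_left δ (show i.1 + 1 + 1 ≤ j.1 + 1 from Nat.succ_le_succ l)))
    · exact .inl l
    · exact .inr (.inr (Nat.mul_le_mul_left δ (show j.1 + 1 + 1 ≤ i.1 + 1 from Nat.succ_le_succ l)))
  have key : ∀ i j : Fin M × Fin M, (mapDomainRingHom k (red N)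
      ((single (pt δ i) 1 - single (-pt δ i) 1) * φ)).coeff (red N (pt δ j + a)) =
      if i = j then φ.coeff a else 0 := fun i j => by
    have b1 := bd i.1
    have b2 := bd i.2
    have b3 := bd j.1
    have b4 := bd j.2
    have c : ∀ p, ((single (pt δ i) 1 - single (-pt δ i) 1) * φ).coeff p =
        φ.coeff (p - pt δ i) - φ.coeff (p + pt δ i) := fun p => by
      rw [sub_mul, coeff_sub, Finsupp.sub_apply, coeff_sm, coeff_sm, sub_neg_eq_add]
    refine (Finsupp.mapDomain_apply' B _ (fun p hp => ?_) inj ?_).trans ?_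
    · have hp := Finsupp.mem_support_iff.1 hp
      rw [c] at hp
      have : φ.coeff (p - pt δ i) ≠ 0 ∨ φ.coeff (p + pt δ i) ≠ 0 := by
        by_contra e
        push Not at e
        simp [e.1, e.2] at hp
      obtain e | e := this <;> have := hρ _ e <;> simp only [B, pt, Set.mem_setOf_eq, Prod.fst_sub,
        Prod.snd_sub, Prod.fst_add, Prod.snd_add] at this ⊢ <;> omega
    · simp only [B, pt, Set.mem_setOf_eq, Prod.fst_add, Prod.snd_add]
      omega
    rw [c, show φ.coeff (pt δ j + a + pt δ i) = 0 by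
      by_contra e
      have := hρ _ e
      simp only [pt, Prod.fst_add, Prod.snd_add] at this
      omega, sub_zero]
    split_ifs with e
    · simp [e]
    by_contra f
    have := hρ _ f
    simp only [pt, Prod.fst_add, Prod.snd_add, Prod.fst_sub, Prod.snd_sub] at this
    obtain b5 | b5 := sp i.1 j.1
    · obtain b6 | b6 := sp i.2 j.2
      · exact e (Prod.ext b5 b6)
      · omega
    · omega
  rw [linearIndependent_iff']
  intro s g h j hj
  have := congrArg (fun x => x.coeff (red N (pt δ j + a))) h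
  simp only [coeff_sum, coeff_smul, Finsupp.finset_sum_apply, Finsupp.smul_apply, key] at this
  simpa [hj, a1] using this

theorem comm_v {S : Type} [CommRing S] {bar : S →+* S} (a b : E bar) (h : a.g = 1) :
    (a * (b * a * b⁻¹) * a⁻¹ * (b * a * b⁻¹)⁻¹).v = (b.g - bar b.g) * (bar a.f * a.f) := by
  have h1 : (b * a * b⁻¹).g = 1 := by simpa [h, mul_comm] using b.h
  have h2 : (b * a * b⁻¹).f = b.g * a.f := by
    simp [h]; linear_combination (-b.f) * b.h
  generalize b * a * b⁻¹ = c at *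
  simp [h, h1, h2]
  ring

theorem noL {m : ℕ} (τ : FreeGroup (Fin m) →* FreeGroup (Fin m)) {R Q : Set (FreeGroup (Fin m))}
    (hR : R.Finite) (hQ : Q.Finite) (γ : FreeGroup (Fin m) →* Lam) (c : FreeGroup (Fin m) → Lam)
    (h1 : ∀ w, ∃ g, γ w = single g 1) (h2 : ∀ a b, c (a * b) = γ a * c b + c a)
    (h3 : ∀ w ∈ R ∪ ⋃ n : ℕ, τ^[n] '' Q, γ w = 1 ∧ c w = 0) (w : FreeGroup (Fin m)) (h4 : γ w = 1)
    (h5 : c w ≠ 0) (h6 : ∀ g, ∃ v, γ v = single g 1 ∧
      w * (v * w * v⁻¹) * w⁻¹ * (v * w * v⁻¹)⁻¹ ∈ Subgroup.normalClosure (R ∪ ⋃ n : ℕ, τ^[n] '' Q)) : False := by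
  classical
  obtain ⟨C, hC⟩ := few τ hR hQ
  have inv : ∀ x : Lam, br _ (br _ x) = x := fun x => by
    rw [br, ← RingHom.comp_apply, ← mapDomainRingHom_comp,
      show (negAddMonoidHom : ℤ × ℤ →+ ℤ × ℤ).comp negAddMonoidHom = .id _ by ext <;> simp, mapDomainRingHom_id]
    rfl
  obtain ⟨δ, hδ⟩ := many (φ := br _ (c w) * c w) (mul_ne_zero (fun e => h5 (by rw [← inv (c w), e, map_zero])) h5)
  obtain ⟨M, hM⟩ : ∃ M, M = C * (8 * δ + 4) + 1 := ⟨_, rfl⟩
  obtain ⟨j, j1, j2⟩ : ∃ j, 2 * δ * (M + 1) < 2 ^ j ∧ 2 ^ j ≤ 2 * (2 * δ * (M + 1)) + 2 := by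
    refine ⟨Nat.log 2 (2 * δ * (M + 1)) + 1, Nat.lt_pow_succ_log_self (by omega) _, ?_⟩
    obtain e | e := eq_or_ne (2 * δ * (M + 1)) 0
    · simp [e]
    · have := Nat.pow_log_le_self 2 e
      rw [pow_succ]; omega
  obtain ⟨I, i1, i2⟩ := nilp j
  set π := mapDomainRingHom k (red (2 ^ j))
  have p1 : ∀ g, π (single g 1) = single (red _ g) 1 := fun g => mapDomain_single
  have p2 : ∀ x, br _ (π x) = π (br _ x) := fun x => by
    rw [br, br, ← RingHom.comp_apply, ← RingHom.comp_apply, ← mapDomainRingHom_comp, ← mapDomainRingHom_comp]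
    congr 2
    ext <;> simp [red]
  let θ : FreeGroup (Fin m) →* E (br (ZMod (2 ^ j) × ZMod (2 ^ j))) := FreeGroup.lift fun i =>
    ⟨π (γ (.of i)), π (c (.of i)), 0, by
      obtain ⟨g, e⟩ := h1 (.of i)
      rw [e, p1, br_single, single_mul_single, neg_add_cancel, one_mul, one_def]⟩
  have c1 : c 1 = 0 := by simpa using h2 1 1
  have t : ∀ w, (θ w).g = π (γ w) ∧ (θ w).f = π (c w) := fun w => by
    induction w using FreeGroup.induction_on with
    | C1 => simp [c1]
    | of i => simp [θ]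
    | mul a b h h' => simp [h2, h, h']
    | inv_of i h =>
      have a := congrArg π (γ.map_mul (.of i)⁻¹ (.of i))
      have b := congrArg π (h2 (.of i)⁻¹ (.of i))
      have d := (θ (.of i)).h
      simp only [inv_mul_cancel, map_one, map_mul, c1, map_zero, map_add, map_inv, E.inv_g, E.inv_f, h] at *
      have e : br _ (π (γ (.of i))) = π (γ (.of i)⁻¹) := by
        linear_combination br _ (π (γ (.of i))) * a + π (γ (.of i)⁻¹) * d
      exact ⟨e, by rw [e]; linear_combination b⟩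
  obtain ⟨T, t1, t2⟩ := hC _ _ I (j + 1) θ i1 (fun w => by
    obtain ⟨g, e⟩ := h1 w
    rw [(t w).1, e, p1]; exact i2 _) fun w hw => by simp [t, h3 w hw]
  have f1 := finrank_span_eq_card (hδ M _ j1)
  have f2 := finrank_span_finset_le_card (R := k) T
  have f3 : Submodule.span k (Set.range fun i : Fin M × Fin M =>
      π ((single (pt δ i) 1 - single (-pt δ i) 1) * (br _ (c w) * c w))) ≤ Submodule.span k (T : Set _) :=
    Submodule.span_le.2 (by
      rintro _ ⟨i, rfl⟩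
      obtain ⟨v, e, hv⟩ := h6 (pt δ i)
      have := t2 _ hv
      simp only [map_mul, map_inv] at this
      rw [comm_v _ _ (by simp [t, h4]), (t v).1, (t w).2] at this
      simpa only [map_mul, map_sub, ← br_single, ← e, ← p2, SetLike.mem_coe] using this)
  have f4 := (f1.ge.trans (Submodule.finrank_mono f3)).trans f2
  simp only [Fintype.card_prod, Fintype.card_fin] at f4
  rw [pow_succ] at t1
  have : C * (2 ^ j * 2) ≤ C * ((8 * δ + 4) * (M + 1)) := Nat.mul_le_mul_left _ (by nlinarith)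
  rw [← mul_assoc C (8 * δ + 4)] at this
  generalize C * (8 * δ + 4) = D at *
  subst hM
  nlinarith

end Pool.Agent.H.MP_5fd2c3_al
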