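import Pool.Agent.H.MP_5fd2c3_al.Grp
import Pool.Agent.H.MP_5fd2c3_al.Lam

set_option autoImplicit false
set_option maxHeartbeats 400000

namespace Pool.Agent.H.MP_5fd2c3_al

@[ext] structure Aff (K : Type) [CommRing K] where
  μ : Fin 6 → Kˣ
  s : Fin 6
  c : Fin 6 → K

namespace Aff
variable {K : Type} [CommRing K]

instance : Mul (Aff K) := ⟨fun a b => ⟨fun j => a.μ j * b.μ (j + a.s), a.s + b.s,
  fun j => a.μ j * b.c (j + a.s) + a.c j⟩⟩
instance : One (Aff K) := ⟨⟨1, 0, 0⟩⟩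
instance : Inv (Aff K) := ⟨fun a => ⟨fun j => (a.μ (j - a.s))⁻¹, -a.s,
  fun j => -((a.μ (j - a.s))⁻¹ * a.c (j - a.s))⟩⟩

@[simp] theorem mul_μ (a b : Aff K) (j) : (a * b).μ j = a.μ j * b.μ (j + a.s) := rfl
@[simp] theorem mul_s (a b : Aff K) : (a * b).s = a.s + b.s := rfl
@[simp] theorem mul_c (a b : Aff K) (j) : (a * b).c j = a.μ j * b.c (j + a.s) + a.c j := rfl
@[simp] theorem one_μ (j) : (1 : Aff K).μ j = 1 := rfl
@[simp] theorem one_s : (1 : Aff K).s = 0 := rfl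
@[simp] theorem one_c (j) : (1 : Aff K).c j = 0 := rfl
@[simp] theorem inv_μ (a : Aff K) (j) : a⁻¹.μ j = (a.μ (j - a.s))⁻¹ := rfl
@[simp] theorem inv_s (a : Aff K) : a⁻¹.s = -a.s := rfl
@[simp] theorem inv_c (a : Aff K) (j) : a⁻¹.c j = -((a.μ (j - a.s))⁻¹ * a.c (j - a.s)) := rfl

instance : Group (Aff K) := Group.ofLeftAxioms
  (fun a b c => by ext <;> simp [add_assoc, mul_assoc, mul_add])
  (fun a => by ext <;> simp)
  (fun a => by ext <;> simp [sub_eq_add_neg])

theorem conj (g y : Aff K) (h : y.s = 0) (j) : (g * y * g⁻¹).μ j = y.μ (j + g.s) := by simp [h]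

theorem conj_c (g y : Aff K) (h : y.s = 0) (h' : ∀ j, y.μ j = 1) (j) :
    (g * y * g⁻¹).c j = g.μ j * y.c (j + g.s) := by simp [h, h']

variable (ε : Fin 6 → Kˣ)

def x (i : Fin 6) : Aff K := ⟨fun j => ε (i + j) * (ε j)⁻¹, 0, 0⟩
def u : Aff K := ⟨ε, 1, 0⟩
def a : Aff K := ⟨1, 0, 1⟩
def m (q : Q) (j : Fin 6) : Kˣ := ∏ i, ε (i + j) ^ q i

theorem top : Top (x ε) (u ε) := ⟨by ext <;> simp [x], fun i j => by
  change _ = _; ext <;> simp [x, mul_comm], fun i => by
    ext l <;> simp [x, u, add_comm, add_left_comm, mul_assoc, mul_comm, mul_left_comm]⟩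

theorem m_add (q r : Q) (j) : m ε (q + r) j = m ε q j * m ε r j := by
  simp [m, zpow_add, Finset.prod_mul_distrib]

theorem m_single (i : Fin 6) (n : ℤ) (j) : m ε (Pi.single i n) j = ε (i + j) ^ n := by
  rw [m, Finset.prod_eq_single i] <;> simp +contextual

theorem x_pow (i : Fin 6) (n : ℤ) : x ε i ^ n = ⟨fun j => (ε (i + j) * (ε j)⁻¹) ^ n, 0, 0⟩ := by
  refine int_ind (P := fun n => x ε i ^ n = ⟨fun j => (ε (i + j) * (ε j)⁻¹) ^ n, 0, 0⟩) (by ext <;> simp)
    (fun n => ?_) n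
  rw [zpow_add_one, ← mul_left_inj (x ε i)]
  rw [show (⟨fun j => (ε (i + j) * (ε j)⁻¹) ^ n, 0, 0⟩ : Aff K) * x ε i =
    ⟨fun j => (ε (i + j) * (ε j)⁻¹) ^ (n + 1), 0, 0⟩ by ext <;> simp [x, zpow_add_one]]

theorem X_eq (q : Q) : X (x ε) q = ⟨fun j => m ε q j * ε j ^ (-deg q), 0, 0⟩ := by
  induction q using Pi.single_induction with
  | zero => rw [X_zero]; ext <;> simp [m, deg]
  | add q r a b =>
    rw [(top ε).X_add, a, b]
    ext j : 2 <;> simp [m_add, deg_add, zpow_add, mul_assoc, mul_comm, mul_left_comm]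
  | single i n => rw [X_single, x_pow]; ext j : 2 <;> simp [m_single, deg_single, mul_zpow]

theorem m_T (q : Q) (j) : m ε (T q) j = ε j * m ε q (j + 1) := by
  rw [T_apply, m_add, e, m_single, mul_comm, m, m, ← Equiv.prod_comp (Equiv.addRight 1)]
  simp [sh, add_assoc, add_comm j]

theorem u_pow (n : ℤ) : (u ε ^ n).μ = m ε ((T ^ n) 0) ∧ (u ε ^ n).c = 0 := by
  refine int_ind (P := fun n => (u ε ^ n).μ = m ε ((T ^ n) 0) ∧ (u ε ^ n).c = 0)
    ⟨by ext; simp [m], rfl⟩ (fun n => ?_) n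
  rw [T_succ, add_comm, zpow_one_add]
  simp only [funext_iff, mul_μ, mul_c, m_T, u, mul_right_inj, Pi.zero_apply, add_zero, Units.mul_right_eq_zero]
  exact and_congr (Equiv.addRight 1).forall_congr_right.symm (Equiv.addRight 1).forall_congr_right.symm

theorem b_eq (q : Q) : b (x ε) (u ε) a q = ⟨1, 0, fun j => m ε q j⟩ := by
  have : ∀ j, (W (x ε) (u ε) q).μ j = m ε q j := fun j => by
    rw [W, X_eq, mul_μ, (u_pow ε _).1, deg_sub, deg_T]
    simp [← m_add, show deg 0 = 0 from rfl]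
  ext j <;> simp [b, a, this]

theorem rels (h : ∀ i, (ε (i + 3) : K) = 1 + ε i) (i : Ix) : rel (x ε) (u ε) a i = 1 := by
  rcases i with _ | ⟨i, j⟩ | i | i | r
  · exact (top ε).x0
  · exact mul_inv_eq_one.2 ((top ε).xc i j)
  · exact mul_inv_eq_one.2 ((top ε).ux i)
  · refine mul_inv_eq_one.2 ?_
    simp only [b_eq, e]
    ext j <;> simp [m_single, add_right_comm i, h, add_comm, show ∀ j, m ε 0 j = 1 by simp [m]]
  · refine mul_inv_eq_one.2 ?_
    simp only [b_eq]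
    ext j <;> simp [add_comm]

end Aff

abbrev K := HahnSeries ℤ Lam

def V (D : ℤ) (f : K) : Prop := ∀ n < D, f.coeff n = 0

theorem V.mul {a b : ℤ} {f g : K} (h : V a f) (h' : V b g) :
    V (a + b) (f * g) ∧ (f * g).coeff (a + b) = f.coeff a * g.coeff b := by
  have : ∀ i j, f.coeff i * g.coeff j ≠ 0 → a ≤ i ∧ b ≤ j := fun i j e =>
    ⟨not_lt.1 fun l => e (by simp [h i l]), not_lt.1 fun l => e (by simp [h' j l])⟩
  refine ⟨fun n l => ?_, ?_⟩ <;> rw [HahnSeries.coeff_mul]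
  · refine Finset.sum_eq_zero fun p hp => by_contra fun e => ?_
    have := this _ _ e
    have := (Finset.mem_antidiagonal.1 hp).2.2
    omega
  · refine Finset.sum_eq_single (a, b) (fun p hp n => by_contra fun e => n ?_) fun hp => by_contra fun e => hp ?_
    · have := this _ _ e
      have := (Finset.mem_antidiagonal.1 hp).2.2
      ext <;> simp <;> omega
    · exact Finset.mem_antidiagonal.2 ⟨left_ne_zero_of_mul e, right_ne_zero_of_mul e, rfl⟩

theorem V.order (f : K) : V f.order f := fun _ => HahnSeries.coeff_eq_zero_of_lt_order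

theorem V.mono {a b : ℤ} {f : K} (h : V a f) (l : b ≤ a) : V b f := fun n k => h n (k.trans_le l)
theorem V.add {a : ℤ} {f g : K} (h : V a f) (h' : V a g) : V a (f + g) := fun n k => by simp [h n k, h' n k]
theorem V.neg {a : ℤ} {f : K} (h : V a f) : V a (-f) := fun n k => by simp [h n k]

open AddMonoidAlgebra

def Mon (a : ℤ) (g : ℤ × ℤ) (f : K) : Prop := V a f ∧ f.coeff a = single g 1

theorem Mon.mul {a b g h} {f f' : K} (p : Mon a g f) (q : Mon b h f') : Mon (a + b) (g + h) (f * f') :=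
  ⟨(p.1.mul q.1).1, by rw [(p.1.mul q.1).2, p.2, q.2, single_mul_single, one_mul]⟩

theorem Mon.one : Mon 0 0 1 := ⟨fun n l => by simp [l.ne], by simp [one_def]⟩

theorem sne (g : ℤ × ℤ) : (single g 1 : Lam) ≠ 0 := by simp

theorem Mon.unit {a g} {f : K} (p : Mon a g f) : IsUnit f := by
  have n : f.coeff a ≠ 0 := p.2 ▸ sne g
  have : f.order = a := (HahnSeries.order_le_of_coeff_ne_zero n).antisymm (not_lt.1 fun l =>
    HahnSeries.coeff_order_eq_zero.not.2 (by rintro rfl; simp at n) (p.1 _ l))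
  rw [HahnSeries.isUnit_iff, HahnSeries.leadingCoeff_eq, this, p.2]
  exact .of_mul_eq_one (single (-g) 1) (by rw [single_mul_single, add_neg_cancel, one_mul, one_def])

theorem Mon.inv {a g} {f : Kˣ} (p : Mon a g f) : Mon (-a) (-g) (f⁻¹ : Kˣ) := by
  have := (p.1.mul (V.order (f⁻¹ : Kˣ))).2
  have n := mul_ne_zero (sne g) (HahnSeries.coeff_order_eq_zero.not.2 (f⁻¹).ne_zero)
  rw [Units.mul_inv, p.2] at this
  have e : a + (f⁻¹ : Kˣ).1.order = 0 := by
    by_contra e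
    exact n (by rw [← this]; simp [e])
  rw [e] at this
  rw [← eq_neg_of_add_eq_zero_right e]
  refine ⟨V.order _, mul_left_cancel₀ (sne g) ?_⟩
  rw [← this, single_mul_single, add_neg_cancel, one_mul, ← one_def]
  simp

theorem Mon.zpow {a g} {f : Kˣ} (p : Mon a g f) (n : ℤ) : Mon (n * a) (n • g) (f ^ n : Kˣ) := by
  have : ∀ n : ℕ, Mon (n * a) ((n : ℤ) • g) (f ^ n : Kˣ) := fun n => by
    induction n with
    | zero => simpa using Mon.one
    | succ n ih => simpa [add_mul, add_smul, pow_succ] using ih.mul p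
  obtain ⟨n, rfl | rfl⟩ := n.eq_nat_or_neg
  · simpa using this n
  · simpa using (this n).inv

def ζ : Fin 6 → ℤ × ℤ := ![0, (1, 0), (0, 1), 0, (1, 0), (0, 1)]

theorem eps : ∃ ε : Fin 6 → Kˣ, (∀ i, (ε (i + 3) : K) = 1 + ε i) ∧ ∀ i, Mon (-1) (ζ i) (ε i) := by
  let s : ℤ × ℤ → K := fun g => HahnSeries.single (-1) (single g 1)
  have a : ∀ g, Mon (-1) g (s g) := fun g => ⟨fun n l => by simp [s, l.ne], by simp [s]⟩
  have c : ∀ g, Mon (-1) g (1 + s g) := fun g =>
    ⟨(Mon.one.1.mono (by simp)).add (a g).1, by simp [s]⟩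
  let v : Fin 6 → K := fun i => if i < 3 then s (ζ i) else 1 + s (ζ i)
  have d : ∀ i, Mon (-1) (ζ i) (v i) := fun i => by
    simp only [v]; split_ifs; exacts [a _, c _]
  refine ⟨fun i => (d i).unit.unit, fun i => ?_, d⟩
  have : (1 : K) + 1 = 0 := by rw [one_add_one_eq_two, two_eq]
  fin_cases i <;> simp [v, ζ, ← add_assoc, this]

end Pool.Agent.H.MP_5fd2c3_al
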