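import Pool.Agent.H.MP_5fd2c3_al.Sys

set_option autoImplicit false
set_option maxHeartbeats 400000

namespace Pool.Agent.H.MP_5fd2c3_al

abbrev Al := Fin 6 ⊕ Bool

def rels : Set (FreeGroup Al) := Set.range (rel (fun i => .of (.inl i)) (.of (.inr true)) (.of (.inr false)))

abbrev GG := PresentedGroup rels

instance : Finite rels := (Set.finite_range _).to_subtype

def gx (i : Fin 6) : GG := PresentedGroup.of (.inl i)
def gu : GG := PresentedGroup.of (.inr true)
def ga : GG := PresentedGroup.of (.inr false)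

theorem grel (i : Ix) : rel gx gu ga i = 1 :=
  (map_rel (PresentedGroup.mk rels) _ _ _ i).symm.trans (PresentedGroup.one_of_mem ⟨i, rfl⟩)

theorem glift {H : Type} [Group H] {x : Fin 6 → H} {u a : H} (h : ∀ i, rel x u a i = 1) :
    ∃ f : GG →* H, f ∘ gx = x ∧ f gu = u ∧ f ga = a := by
  refine ⟨PresentedGroup.toGroup (f := Sum.elim x fun c => cond c u a) ?_, funext fun i => ?_, ?_, ?_⟩
  · rintro _ ⟨i, rfl⟩
    rw [map_rel, ← h i]
    congr 1 <;> simp [Function.comp_def]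
  all_goals exact PresentedGroup.toGroup.of _

theorem gtop : Top gx gu := ⟨grel (.inl ()), fun i j => mul_inv_eq_one.1 (grel (.inr (.inl (i, j)))),
  fun i => mul_inv_eq_one.1 (grel (.inr (.inr (.inl i))))⟩

theorem gcomm (q r : Q) : Commute (b gx gu ga q) (b gx gu ga r) := by
  refine baum (fun q i => ?_) (fun q r hr => ?_) q r
  · obtain ⟨j, k⟩ := gtop.Wb (a := ga) q
    have := congrArg (fun y => W gx gu q * y * (W gx gu q)⁻¹)
      (mul_inv_eq_one.1 (grel (.inr (.inr (.inr (.inl (i - j)))))))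
    simp only [← conj_mul, k, e, sh_single] at this
    rw [show sh j 0 = 0 from rfl, add_zero, sub_add_cancel, add_right_comm, sub_add_cancel] at this
    exact this
  · obtain ⟨j, k⟩ := gtop.Wb (a := ga) q
    have := congrArg (fun y => W gx gu q * y * (W gx gu q)⁻¹)
      (mul_inv_eq_one.1 (grel (.inr (.inr (.inr (.inr ⟨sh (-j) r, fun i => hr.1 _, fun i => hr.2 _⟩))))))
    simp only [← conj_mul, k] at this
    rw [show sh j 0 = 0 from rfl, add_zero, show sh j (sh (-j) r) = r by ext i; simp [sh]] at this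
    exact this

def A : Subgroup GG := Subgroup.closure (Set.range (b gx gu ga))

theorem b_zero {G : Type} [Group G] {x : Fin 6 → G} {u a : G} : b x u a 0 = a := by simp [b, W_zero]

theorem a_mem : ga ∈ A := Subgroup.subset_closure ⟨0, b_zero⟩

theorem A_comm {y z : GG} (hy : y ∈ A) (hz : z ∈ A) : Commute y z := by
  induction hy, hz using Subgroup.closure_induction₂ with
  | mem y z a b => obtain ⟨q, rfl⟩ := a; obtain ⟨r, rfl⟩ := b; exact gcomm q r
  | one_left => exact .one_left _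
  | one_right => exact .one_right _
  | mul_left _ _ _ _ _ _ a b => exact a.mul_left b
  | mul_right _ _ _ _ _ _ a b => exact a.mul_right b
  | inv_left _ _ _ _ a => exact a.inv_left
  | inv_right _ _ _ _ a => exact a.inv_right

theorem W_conj (q : Q) {y : GG} (hy : y ∈ A) : W gx gu q * y * (W gx gu q)⁻¹ ∈ A := by
  obtain ⟨j, k⟩ := gtop.Wb (a := ga) q
  induction hy using Subgroup.closure_induction with
  | mem y a => obtain ⟨r, rfl⟩ := a; exact Subgroup.subset_closure ⟨_, (k r).symm⟩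
  | one => simp
  | mul _ _ _ _ a b => rw [← conj_mul]; exact mul_mem a b
  | inv _ _ a => rw [← conj_inv]; exact inv_mem a

theorem nf (g : GG) : ∃ y ∈ A, ∃ q, g = y * W gx gu q := by
  have m : ∀ g h : GG, (∃ y ∈ A, ∃ q, g = y * W gx gu q) → (∃ y ∈ A, ∃ q, h = y * W gx gu q) →
      ∃ y ∈ A, ∃ q, g * h = y * W gx gu q := by
    rintro _ _ ⟨y, hy, q, rfl⟩ ⟨z, hz, r, rfl⟩
    obtain ⟨j, k⟩ := gtop.WW q
    exact ⟨_, mul_mem hy (W_conj q hz), _, by rw [← k r]; group⟩
  have g1 : ∀ i (n : ℤ), ∃ y ∈ A, ∃ q, gx i ^ n = y * W gx gu q := fun i n =>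
    ⟨1, one_mem _, 0 + (Pi.single i n + Pi.single 0 (-n)), by
      rw [← gtop.XW _ _ (by rw [deg_add, deg_single, deg_single, add_neg_cancel]), gtop.X_add, X_single, X_single, gtop.x0, W_zero]; simp⟩
  have g2 : ∀ n : ℤ, ∃ y ∈ A, ∃ q, gu ^ n = y * W gx gu q := fun n =>
    ⟨1, one_mem _, _, by rw [← gtop.upW n 0, W_zero]; simp⟩
  have : g ∈ Subgroup.closure (Set.range (PresentedGroup.of (rels := rels))) := by
    rw [PresentedGroup.closure_range_of]; trivial
  induction this using Subgroup.closure_induction_left with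
  | one => exact ⟨1, one_mem _, 0, by simp [W_zero]⟩
  | mul_left y hy _ _ ih =>
    refine m _ _ ?_ ih
    obtain ⟨i | _ | _, rfl⟩ := hy
    exacts [g1 i 1, ⟨_, a_mem, 0, by rw [W_zero, mul_one]; rfl⟩, g2 1]
  | inv_mul_cancel y hy _ _ ih =>
    refine m _ _ ?_ ih
    obtain ⟨i | _ | _, rfl⟩ := hy
    exacts [g1 i (-1), ⟨_, inv_mem a_mem, 0, by rw [W_zero, mul_one]; rfl⟩, g2 (-1)]

instance : A.Normal := ⟨fun y hy g => by
  obtain ⟨z, hz, q, rfl⟩ := nf g
  rw [show z * W gx gu q * y * (z * W gx gu q)⁻¹ = z * (W gx gu q * y * (W gx gu q)⁻¹) * z⁻¹ by group]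
  exact mul_mem (mul_mem hz (W_conj q hy)) (inv_mem hz)⟩

theorem chi (χ : GG →* Multiplicative ℤ) : (∀ y ∈ A, χ y = 1) ∧ (∀ q, χ (X gx q) = 1) := by
  have a : ∀ q, χ (b gx gu ga q) = χ ga := fun q => by simp [b]
  have a1 := congrArg χ (mul_inv_eq_one.1 (grel (.inr (.inr (.inr (.inl 0))))))
  rw [map_mul, a, a, a] at a1
  have x : ∀ i, (χ (gx (i + 1))).toAdd = (χ (gx i)).toAdd + (χ (gx 1)).toAdd := fun i => by
    have := congrArg (fun y => (χ y).toAdd) (gtop.ux i)
    simp at this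
    omega
  have x0 : (χ (gx 0)).toAdd = 0 := by simp [gtop.x0]
  have x1 := x 1
  have x2 := x 2
  have x3 := x 3
  have x4 := x 4
  have x5 := x 5
  simp only [Fin.reduceAdd] at x1 x2 x3 x4 x5
  refine ⟨fun y hy => (Subgroup.closure_le χ.ker).2 ?_ hy, fun q => ?_⟩
  · rintro _ ⟨q, rfl⟩
    exact (a q).trans (by simpa using a1)
  · rw [map_X, show χ ∘ gx = 1 by
      have : ∀ i, (χ (gx i)).toAdd = 0 := by
        have e1 : (χ (gx 1)).toAdd = 0 := by omega
        intro i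
        fin_cases i
        exacts [x0, e1, by simpa [e1] using x1, by simpa [e1, x1] using x2, by simpa [e1, x1, x2] using x3,
          by simpa [e1, x1, x2, x3] using x4]
      exact funext this]
    simp [X]

theorem ker_chi {χ : GG →* Multiplicative ℤ} (h : ∃ g, χ g ≠ 1) {g : GG} (k : χ g = 1) :
    ∃ y ∈ A, ∃ q, g = y * X gx q := by
  have a : ∀ y ∈ A, ∀ q, χ (y * W gx gu q) = χ gu ^ deg q := fun y hy q => by
    simp [W, (chi χ).1 y hy, (chi χ).2]
  obtain ⟨y, hy, q, rfl⟩ := nf g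
  obtain ⟨g, hg⟩ := h
  obtain ⟨z, hz, r, rfl⟩ := nf g
  rw [a _ hz] at hg
  rw [a _ hy] at k
  have : deg q = 0 := by
    have := congrArg Multiplicative.toAdd k
    simp at this
    exact this.resolve_right fun e => hg (by simp [show χ gu = 1 from e])
  exact ⟨y, hy, q, by simp [W, this]⟩

theorem comm_mem {g h : GG} (a : ∃ y ∈ A, ∃ q, g = y * X gx q) (c : ∃ y ∈ A, ∃ q, h = y * X gx q) :
    g * h * g⁻¹ * h⁻¹ ∈ A := by
  obtain ⟨y, hy, q, rfl⟩ := a
  obtain ⟨z, hz, r, rfl⟩ := c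
  rw [← QuotientGroup.eq_one_iff] at *
  have := congrArg (QuotientGroup.mk (s := A)) (gtop.X_comm q r).eq
  simp only [QuotientGroup.mk_mul, QuotientGroup.mk_inv, hy, hz, one_mul] at this ⊢
  rw [this]
  group

theorem indic : ∃ f : GG →* Multiplicative ℤ, Function.Surjective f := by
  obtain ⟨f, -, h, -⟩ := glift (x := 1) (u := Multiplicative.ofAdd (1 : ℤ)) (a := 1) fun i => by
    rcases i with _ | _ | _ | _ | _ <;> simp [rel, b]
  exact ⟨f, fun n => ⟨gu ^ n.toAdd, by rw [map_zpow, h, ← ofAdd_zsmul]; simp⟩⟩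

theorem noF2 : ¬ ∃ f : FreeGroup (Fin 2) →* GG, Function.Injective f := by
  rintro ⟨f, hf⟩
  obtain ⟨χ, hχ⟩ := indic
  obtain ⟨g, hg⟩ := hχ (.ofAdd 1)
  have a : ∀ x y : GG, ∃ z ∈ A, ∃ q, x * y * x⁻¹ * y⁻¹ = z * X gx q := fun x y =>
    ker_chi ⟨g, by rw [hg]; decide⟩ (by simp)
  let c : ∀ {H : Type} [Group H], H → H → H := fun x y => x * y * x⁻¹ * y⁻¹
  let φ : FreeGroup (Fin 2) →* Equiv.Perm (Fin 5) := FreeGroup.lift ![c[0, 1, 2, 3, 4], c[0, 1, 2]]
  have : ∀ x1 x2 x3 x4 x5 x6 x7 x8 : FreeGroup (Fin 2),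
      c (c (c (φ x1) (φ x2)) (c (φ x3) (φ x4))) (c (c (φ x5) (φ x6)) (c (φ x7) (φ x8))) = 1 := by
    intro x1 x2 x3 x4 x5 x6 x7 x8
    have : c (c (c x1 x2) (c x3 x4)) (c (c x5 x6) (c x7 x8)) = 1 := hf (by
      have := (A_comm (comm_mem (a (f x1) (f x2)) (a (f x3) (f x4)))
        (comm_mem (a (f x5) (f x6)) (a (f x7) (f x8)))).eq
      simp only [c, map_mul, map_inv, map_one]
      rw [this, mul_inv_cancel_right, mul_inv_cancel])
    simpa only [c, map_mul, map_inv, map_one] using congrArg φ this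
  have := this (.of 0) (.of 1) (.of 0) (.of 1)⁻¹ (.of 0) (.of 1) (.of 0)⁻¹ (.of 1)
  simp only [φ, map_inv, FreeGroup.lift_apply_of] at this
  revert this
  decide +kernel

end Pool.Agent.H.MP_5fd2c3_al
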