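import Pool.Agent.H.MP_5fd2c3_al.Per

set_option autoImplicit false
set_option maxHeartbeats 400000

namespace Pool.Agent.H.MP_5fd2c3_al

variable {S : Type} [CommRing S]

@[ext] structure E (bar : S →+* S) where
  g : S
  f : S
  v : S
  h : bar g * g = 1

namespace E
variable {bar : S →+* S}

theorem h' (a : E bar) : bar (bar a.g) * bar a.g = 1 := by rw [← map_mul, a.h, map_one]

instance : Mul (E bar) := ⟨fun a b => ⟨a.g * b.g, a.g * b.f + a.f, a.v + b.v + bar a.f * a.g * b.f, by
  rw [map_mul]; linear_combination (bar b.g * b.g) * a.h + b.h⟩⟩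
instance : One (E bar) := ⟨⟨1, 0, 0, by simp⟩⟩
instance : Inv (E bar) := ⟨fun a => ⟨bar a.g, -(bar a.g * a.f), -a.v + bar a.f * a.f, a.h'⟩⟩

@[simp] theorem mul_g (a b : E bar) : (a * b).g = a.g * b.g := rfl
@[simp] theorem mul_f (a b : E bar) : (a * b).f = a.g * b.f + a.f := rfl
@[simp] theorem mul_v (a b : E bar) : (a * b).v = a.v + b.v + bar a.f * a.g * b.f := rfl
@[simp] theorem one_g : (1 : E bar).g = 1 := rfl
@[simp] theorem one_f : (1 : E bar).f = 0 := rfl
@[simp] theorem one_v : (1 : E bar).v = 0 := rfl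
@[simp] theorem inv_g (a : E bar) : a⁻¹.g = bar a.g := rfl
@[simp] theorem inv_f (a : E bar) : a⁻¹.f = -(bar a.g * a.f) := rfl
@[simp] theorem inv_v (a : E bar) : a⁻¹.v = -a.v + bar a.f * a.f := rfl

instance : Group (E bar) := Group.ofLeftAxioms
  (fun a b c => by
    ext <;> simp
    · ring
    · ring
    · linear_combination (bar b.f * b.g * c.f) * a.h)
  (fun a => by ext <;> simp)
  (fun a => by
    ext <;> simp
    · exact a.h
    · linear_combination (-bar a.f * a.f) * a.h')

def mat : E bar →* Matrix (Fin 3) (Fin 3) S where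
  toFun a := !![1, bar a.f * a.g, a.v; 0, a.g, a.f; 0, 0, 1]
  map_one' := by ext i j; fin_cases i <;> fin_cases j <;> simp
  map_mul' a b := by
    ext i j; fin_cases i <;> fin_cases j <;> simp [Matrix.mul_apply, Fin.sum_univ_three]
    · linear_combination (bar b.f * b.g) * a.h
    · ring

end E

variable [Algebra k S]

def fil (I : Ideal S) (d : ℕ) : Submodule k (Matrix (Fin 3) (Fin 3) S) where
  carrier := {M | ∀ i j, (j < i → M i j = 0) ∧ M i j ∈ I ^ (d - (j - i : ℕ))}
  add_mem' a b i j := ⟨fun h => by simp [(a i j).1 h, (b i j).1 h], add_mem (a i j).2 (b i j).2⟩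
  zero_mem' i j := by simp
  smul_mem' c M a i j := ⟨fun h => by simp [(a i j).1 h], by
    rw [Matrix.smul_apply, Algebra.smul_def]; exact Ideal.mul_mem_left _ _ (a i j).2⟩

theorem fil_mul (I : Ideal S) (a b : ℕ) : fil I a * fil I b ≤ fil I (a + b) :=
  Submodule.mul_le.2 fun M hM N hN i j => by
    rw [Matrix.mul_apply]
    refine ⟨fun h => Finset.sum_eq_zero fun l _ => ?_, Ideal.sum_mem _ fun l _ => ?_⟩
    · obtain k | k := lt_or_ge l i
      · rw [(hM i l).1 k, zero_mul]
      · rw [(hN l j).1 (h.trans_le k), mul_zero]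
    · obtain k | k := lt_or_ge l i
      · simp [(hM i l).1 k]
      obtain k' | k' := lt_or_ge j l
      · simp [(hN l j).1 k']
      have := Ideal.mul_mem_mul (hM i l).2 (hN l j).2
      rw [← pow_add] at this
      exact Ideal.pow_le_pow_right (by rw [Fin.le_def] at k k'; omega) this

theorem few {m : ℕ} (τ : FreeGroup (Fin m) →* FreeGroup (Fin m)) {R Q : Set (FreeGroup (Fin m))}
    (hR : R.Finite) (hQ : Q.Finite) : ∃ C : ℕ, ∀ (S : Type) [CommRing S] [Algebra k S] (bar : S →+* S)
    (I : Ideal S) (j : ℕ) (θ : FreeGroup (Fin m) →* E bar), I ^ 2 ^ j = ⊥ → (∀ w, (θ w).g - 1 ∈ I) →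
    (∀ w ∈ R ∪ ⋃ n : ℕ, τ^[n] '' Q, (θ w).g = 1 ∧ (θ w).f = 0) → ∃ T : Finset S, T.card ≤ C * 2 ^ j ∧
      ∀ w ∈ Subgroup.normalClosure (R ∪ ⋃ n : ℕ, τ^[n] '' Q), (θ w).v ∈ Submodule.span k (T : Set S) := by
  classical
  obtain ⟨c, c0, hc⟩ := period (m := m) τ
  refine ⟨hR.toFinset.card + hQ.toFinset.card * (4 * c), fun S _ _ bar I j θ h0 h1 h2 => ?_⟩
  have p := hc _ (fil I) (E.mat.comp θ) (j + 1) (fil_mul I) (fun w a b => by
    fin_cases a <;> fin_cases b <;> simp [E.mat, h1]) (eq_bot_iff.2 fun M hM => by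
      ext a b
      have := Ideal.pow_le_pow_right (I := I) (show 2 ^ j ≤ 2 ^ (j + 1) + 1 - (b - a : ℕ) by
        have := b.2; have := Nat.one_le_two_pow (n := j); omega) (hM a b).2
      simpa [h0] using this)
  set L := c * 2 ^ (j + 1)
  have L0 : 0 < L := by positivity
  let T := hR.toFinset.image (fun w => (θ w).v) ∪
    (hQ.toFinset ×ˢ Finset.range (2 * L)).image fun p => (θ (τ^[p.2] p.1)).v
  refine ⟨T, (Finset.card_union_le ..).trans ?_, fun w hw => ?_⟩
  · rw [add_mul]
    refine add_le_add (Finset.card_image_le.trans (Nat.le_mul_of_pos_right _ (by positivity)))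
      (Finset.card_image_le.trans (le_of_eq ?_))
    simp only [Finset.card_product, Finset.card_range, L]
    ring
  let Z : Subgroup (E bar) :=
    { carrier := {e | e.g = 1 ∧ e.f = 0 ∧ e.v ∈ Submodule.span k (T : Set S)}
      mul_mem' := fun a b => ⟨by simp [a.1, b.1], by simp [a.2.1, b.2.1], by
        simpa [a.2.1] using add_mem a.2.2 b.2.2⟩
      one_mem' := by simp
      inv_mem' := fun a => ⟨by simp [a.1], by simp [a.2.1], by simpa [a.2.1] using a.2.2⟩ }
  haveI : Z.Normal := ⟨fun a ha b => by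
    rw [show b * a * b⁻¹ = a by
      rw [mul_inv_eq_iff_eq_mul]; ext <;> simp [ha.1, ha.2.1, add_comm]]
    exact ha⟩
  refine (Subgroup.normalClosure_le_normal (N := Z.comap θ) (fun w hw => ⟨(h2 w hw).1, (h2 w hw).2,
    Submodule.subset_span ?_⟩) hw).2.2
  simp only [T, Finset.coe_union, Finset.coe_image]
  obtain hw | hw := hw
  · exact .inl ⟨w, by simpa, rfl⟩
  obtain ⟨n, q, hq, rfl⟩ := Set.mem_iUnion.1 hw
  clear hw
  right
  induction n using Nat.strong_induction_on with
  | _ n ih =>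
    obtain l | l := lt_or_ge n (2 * L)
    · exact ⟨(q, n), by simpa using ⟨hq, l⟩, rfl⟩
    · have := congrFun (congrFun (p (τ^[n - 2 * L] q)) 0) 2
      simp only [Monoid.End.coe_pow] at this
      change (θ (τ^[L] (τ^[L] _))).v = (θ (τ^[L] _)).v at this
      rw [← Function.iterate_add_apply, ← Function.iterate_add_apply, ← Function.iterate_add_apply,
        show L + L + (n - 2 * L) = n by omega] at this
      rw [this]
      exact ih _ (by omega)

end Pool.Agent.H.MP_5fd2c3_al
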