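import Pool.Agent.H.MP_5fd2c3_al.Aff

set_option autoImplicit false
set_option maxHeartbeats 400000

namespace Pool.Agent.H.MP_5fd2c3_al

open AddMonoidAlgebra

theorem key {m : ℕ} (τ : FreeGroup (Fin m) →* FreeGroup (Fin m)) {R Q' : Set (FreeGroup (Fin m))}
    (hR : R.Finite) (hQ : Q'.Finite) (φ : FreeGroup (Fin m) →* GG) (t : GG)
    (h1 : ∀ w, φ w = 1 ↔ w ∈ Subgroup.normalClosure (R ∪ ⋃ n : ℕ, τ^[n] '' Q'))
    (h2 : ∀ w, ∃ y ∈ A, ∃ q, φ w = y * X gx q)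
    (h3 : ∀ g, g = ga ∨ (∃ q, g = X gx q) → ∃ n : ℕ, t ^ (6 * n) * g * (t ^ (6 * n))⁻¹ ∈ φ.range) : False := by
  obtain ⟨ε, e1, e2⟩ := eps
  obtain ⟨Ψ, p1, p2, p3⟩ := glift (Aff.rels ε e1)
  have pA : ∀ y ∈ A, (Ψ y).s = 0 ∧ ∀ j, (Ψ y).μ j = 1 := fun y hy => by
    induction hy using Subgroup.closure_induction with
    | mem y a => obtain ⟨r, rfl⟩ := a; rw [map_b, p1, p2, p3, Aff.b_eq]; simp
    | one => simp
    | mul _ _ _ _ a b => simp [a, b]
    | inv _ _ a => simp [a]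
  have pX : ∀ q, (Ψ (X gx q)).s = 0 ∧ Mon 0 (∑ i, q i • ζ i) ((Ψ (X gx q)).μ 0) := fun q => by
    rw [map_X, p1, Aff.X_eq]
    refine ⟨rfl, ?_⟩
    have : ∀ s : Finset (Fin 6), Mon (-∑ i ∈ s, q i) (∑ i ∈ s, q i • ζ i) (∏ i ∈ s, ε i ^ q i : Kˣ) := fun s => by
      induction s using Finset.induction_on with
      | empty => simpa using Mon.one
      | insert i s a ih =>
        rw [Finset.sum_insert a, Finset.sum_insert a, Finset.prod_insert a]
        simpa [add_comm] using ((e2 i).zpow (q i)).mul ih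
    simpa [Aff.m, deg, show ζ 0 = 0 from rfl] using (this Finset.univ).mul ((e2 0).zpow (-deg q))
  let μ : FreeGroup (Fin m) → K := fun w => (Ψ (φ w)).μ 0
  let c : FreeGroup (Fin m) → K := fun w => (Ψ (φ w)).c 0
  have s0 : ∀ w, (Ψ (φ w)).s = 0 ∧ ∃ g, Mon 0 g (μ w) := fun w => by
    obtain ⟨y, hy, q, e⟩ := h2 w
    simp only [μ, e, map_mul, Aff.mul_s, Aff.mul_μ, pA y hy, pX q, add_zero, one_mul]
    exact ⟨trivial, _, (pX q).2⟩
  have m1 : ∀ a b, μ (a * b) = μ a * μ b := fun a b => by simp [μ, s0]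
  have c1 : ∀ a b, c (a * b) = μ a * c b + c a := fun a b => by simp [μ, c, s0]
  have m0 : μ 1 = 1 := by simp [μ]
  have c0 : c 1 = 0 := by simp [c]
  have v0 : ∀ w, V 0 (μ w) := fun w => (s0 w).2.choose_spec.1
  have st : ∀ n : ℕ, (Ψ (t ^ (6 * n))).s = 0 := fun n => by
    have : ∀ n : ℕ, (Ψ (t ^ n)).s = n • (Ψ t).s := fun n => by
      induction n with
      | zero => simp
      | succ n ih => rw [pow_succ, map_mul, Aff.mul_s, ih, succ_nsmul]
    rw [this, mul_nsmul, show ∀ z : Fin 6, 6 • z = 0 by decide, nsmul_zero]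
  have sur : ∀ g, ∃ v, Mon 0 g (μ v) := fun g => by
    obtain ⟨n, v, e⟩ := h3 _ (.inr ⟨Pi.single 1 g.1 + Pi.single 2 g.2, rfl⟩)
    refine ⟨v, ?_⟩
    have := (pX (Pi.single 1 g.1 + Pi.single 2 g.2)).2
    simp only [μ, e, map_mul, map_inv, Aff.conj _ _ (pX _).1, st, add_zero]
    rwa [show ∑ i, (Pi.single 1 g.1 + Pi.single 2 g.2 : Q) i • ζ i = g by
      ext <;> simp [Fin.sum_univ_succ, ζ]] at this
  obtain ⟨D0, hD0⟩ : ∃ D, ∀ w, V D (c w) := by
    obtain ⟨D, hD⟩ := (Set.finite_range fun i => (c (.of i)).order).bddBelow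
    refine ⟨D, fun w => ?_⟩
    induction w using FreeGroup.induction_on with
    | C1 => rw [c0]; exact fun _ _ => rfl
    | of i => exact (V.order _).mono (hD ⟨i, rfl⟩)
    | mul a b h h' => rw [c1]; exact (zero_add D ▸ ((v0 a).mul h').1).add h
    | inv_of i h =>
      have := c1 (.of i)⁻¹ (.of i)
      rw [inv_mul_cancel, c0] at this
      rw [eq_neg_of_add_eq_zero_right this.symm]
      exact (zero_add D ▸ ((v0 _).mul h).1).neg
  obtain ⟨w1, a1, a2⟩ : ∃ w, φ w ∈ A ∧ c w ≠ 0 := by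
    obtain ⟨n, v, e⟩ := h3 _ (.inl rfl)
    refine ⟨v, e ▸ Subgroup.Normal.conj_mem inferInstance _ a_mem _, ?_⟩
    simp only [c, e, map_mul, map_inv, Aff.conj_c _ _ (pA _ a_mem).1 (pA _ a_mem).2]
    simp [p3, Aff.a]
  obtain ⟨D, d1, d2⟩ := Int.exists_greatest_of_bdd (P := fun D => ∀ w, φ w ∈ A → V D (c w))
    ⟨(c w1).order, fun D h => not_lt.1 fun l => HahnSeries.coeff_order_eq_zero.not.2 a2 (h w1 a1 _ l)⟩
    ⟨D0, fun w _ => hD0 w⟩
  obtain ⟨w0, b1, b2⟩ : ∃ w, φ w ∈ A ∧ (c w).coeff D ≠ 0 := by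
    by_contra e
    push Not at e
    have := d2 (D + 1) fun w hw n l => (Int.lt_add_one_iff.1 l).eq_or_lt.elim (· ▸ e w hw) (d1 w hw n)
    omega
  have mA : ∀ w, φ w ∈ A → μ w = 1 := fun w hw => by simp [μ, (pA _ hw).2]
  obtain ⟨h0, g0⟩ := sur (1, 0)
  let c' : FreeGroup (Fin m) → K := fun w => (1 - μ h0) * c w - (1 - μ w) * c h0
  have v1 : ∀ w, V D (c' w) := fun w => by
    have a : φ (w * h0 * w⁻¹ * h0⁻¹) ∈ A := by simpa using comm_mem (h2 w) (h2 h0)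
    have := c1 (w * h0 * w⁻¹ * h0⁻¹) (h0 * w)
    rw [mA _ a, show w * h0 * w⁻¹ * h0⁻¹ * (h0 * w) = w * h0 by group, c1, c1] at this
    rw [show c' w = c (w * h0 * w⁻¹ * h0⁻¹) by simp only [c']; linear_combination this]
    exact d1 _ a
  refine noL τ hR hQ ⟨⟨fun w => (μ w).coeff 0, by simp [m0]⟩, fun a b => by
    simpa [m1] using ((v0 a).mul (v0 b)).2⟩ (fun w => (c' w).coeff D)
    (fun w => ⟨_, (s0 w).2.choose_spec.2⟩) (fun a b => ?_) (fun w hw => ?_) w0 (by simp [mA _ b1]) ?_ fun g => ?_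
  · have := ((v0 a).mul (v1 b)).2
    rw [zero_add] at this
    rw [show c' (a * b) = μ a * c' b + c' a by simp only [c', m1, c1]; ring, HahnSeries.coeff_add, this]
    rfl
  · have := (h1 w).2 (Subgroup.subset_normalClosure hw)
    simp [c', μ, c, this]
  · have := ((Mon.one.1.add g0.1.neg).mul (d1 _ b1)).2
    rw [zero_add, ← sub_eq_add_neg] at this
    simp only [c', mA _ b1, sub_self, zero_mul, sub_zero, this]
    refine mul_ne_zero ?_ b2
    rw [HahnSeries.coeff_sub, g0.2, Mon.one.2, sub_ne_zero]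
    intro e
    simpa using congrArg (fun x => x.coeff 0) e
  · obtain ⟨v, e⟩ := sur g
    refine ⟨v, e.2, (h1 _).1 ?_⟩
    have := (A_comm b1 (Subgroup.Normal.conj_mem inferInstance _ b1 (φ v))).eq
    simp only [map_mul, map_inv]
    rw [this, mul_inv_cancel_right, mul_inv_cancel]

open HNNExtension in
theorem asc {H : Type} [Group H] {B : Subgroup H} (ψ : (⊤ : Subgroup H) ≃* B) :
    ∃ χ : HNNExtension H ⊤ B ψ →* Multiplicative ℤ, χ t ≠ 1 ∧ (∀ h, χ (of h) = 1) ∧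
      ∀ g, χ g = 1 → ∃ k : ℕ, ∀ n ≥ k, t ^ n * g * (t ^ n)⁻¹ ∈ (of : H →* HNNExtension H ⊤ B ψ).range := by
  let χ : HNNExtension H ⊤ B ψ →* Multiplicative ℤ := lift 1 (.ofAdd 1) (by simp)
  have a : χ t = .ofAdd 1 := lift_t ..
  have b : ∀ h, χ (of h) = 1 := fun h => lift_of ..
  have : ∀ g, ∃ k : ℤ, ∀ n ≥ k, t ^ n * g * (t ^ (n + (χ g).toAdd))⁻¹ ∈
      (of : H →* HNNExtension H ⊤ B ψ).range := fun g => by
    induction g using HNNExtension.induction_on with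
    | of h =>
      refine ⟨0, fun n l => ?_⟩
      lift n to ℕ using l
      rw [b, toAdd_one, add_zero, zpow_natCast]
      induction n with
      | zero => simp
      | succ n ih =>
        obtain ⟨y, e⟩ := ih
        refine ⟨ψ ⟨y, trivial⟩, ?_⟩
        rw [← mul_inv_eq_iff_eq_mul.2 (t_mul_of (φ := ψ) ⟨y, trivial⟩), e, pow_succ']
        group
    | t => exact ⟨0, fun n _ => by simp [a, zpow_add_one]⟩
    | mul x y hx hy =>
      obtain ⟨k, hx⟩ := hx
      obtain ⟨l, hy⟩ := hy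
      refine ⟨max k (l - (χ x).toAdd), fun n e => ?_⟩
      have := mul_mem (hx n (by omega)) (hy (n + (χ x).toAdd) (by omega))
      simpa [mul_assoc, add_assoc] using this
    | inv x hx =>
      obtain ⟨k, hx⟩ := hx
      refine ⟨k + (χ x).toAdd, fun n e => ?_⟩
      have := inv_mem (hx (n - (χ x).toAdd) (by omega))
      simpa [mul_assoc, sub_eq_add_neg] using this
  refine ⟨χ, by rw [a]; decide, b, fun g e => ?_⟩
  obtain ⟨k, h⟩ := this g
  exact ⟨k.toNat, fun n l => by simpa [e] using h n (by omega)⟩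

theorem main {m : ℕ} (τ : FreeGroup (Fin m) →* FreeGroup (Fin m)) {R Q' : Set (FreeGroup (Fin m))}
    (hR : R.Finite) (hQ : Q'.Finite) (B : Subgroup (PresentedGroup (R ∪ ⋃ n : ℕ, τ^[n] '' Q')))
    (ψ : (⊤ : Subgroup _) ≃* B) (e : GG ≃* HNNExtension _ ⊤ B ψ) : False := by
  obtain ⟨χ, c1, c2, c3⟩ := asc ψ
  refine key τ hR hQ (e.symm.toMonoidHom.comp (HNNExtension.of.comp (PresentedGroup.mk _)))
    (e.symm HNNExtension.t) (fun w => ?_) (fun w => ker_chi (χ := χ.comp e.toMonoidHom)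
      ⟨e.symm HNNExtension.t, by simpa⟩ (by simp [c2])) fun g hg => ?_
  · rw [← PresentedGroup.mk_eq_one_iff]
    exact map_eq_one_iff (e.symm.toMonoidHom.comp HNNExtension.of)
      (e.symm.injective.comp (HNNExtension.of_injective ψ))
  · obtain ⟨k, h⟩ := c3 (e g) (by
      obtain rfl | ⟨q, rfl⟩ := hg
      exacts [(chi (χ.comp e.toMonoidHom)).1 _ a_mem, (chi (χ.comp e.toMonoidHom)).2 q])
    obtain ⟨y, h⟩ := h (6 * k) (by omega)
    obtain ⟨w, rfl⟩ := PresentedGroup.mk_surjective _ y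
    exact ⟨k, w, by simp [h]⟩

end Pool.Agent.H.MP_5fd2c3_al
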