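import Mathlib

set_option autoImplicit false
set_option maxHeartbeats 400000

namespace Pool.Agent.H.MP_5fd2c3_al

open MonoidAlgebra

abbrev k := ZMod 2

variable {F : Type} [Group F]

noncomputable def aug (F : Type) [Group F] : Submodule k (MonoidAlgebra k F) :=
  Submodule.span k (Set.range fun w => of k F w - 1)

theorem mem_aug (w : F) : of k F w - 1 ∈ aug F := Submodule.subset_span ⟨w, rfl⟩

theorem exists_c {m : ℕ} (τ : Monoid.End (FreeGroup (Fin m))) : ∃ c > 0, ∀ w,
    of k _ ((τ ^ c) ((τ ^ c) w)) - of k _ ((τ ^ c) w) ∈ aug (FreeGroup (Fin m)) * aug _ := by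
  set D := aug (FreeGroup (Fin m)) * aug _
  let δ : FreeGroup (Fin m) →* Multiplicative (MonoidAlgebra k (FreeGroup (Fin m)) ⧸ D) :=
    MonoidHom.mk' (fun w => .ofAdd (D.mkQ (of k _ w - 1))) fun a b => by
      rw [← ofAdd_add, ← map_add]
      congr 1
      refine (Submodule.Quotient.eq _).2 ?_
      rw [show of k _ (a * b) - 1 - (of k _ a - 1 + (of k _ b - 1)) = (of k _ a - 1) * (of k _ b - 1) by
        rw [map_mul]; noncomm_ring]
      exact Submodule.mul_mem_mul (mem_aug a) (mem_aug b)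
  let P := Submodule.span k (Set.range fun i => (δ (.of i)).toAdd)
  haveI : Module.Finite k P := Module.Finite.span_of_finite _ (Set.finite_range _)
  haveI : Finite P := Module.finite_of_finite k
  have hP : ∀ w, (δ w).toAdd ∈ P := fun w => by
    induction w using FreeGroup.induction_on with
    | C1 => simp
    | of i => exact Submodule.subset_span ⟨i, rfl⟩
    | inv_of i h => rw [map_inv]; exact neg_mem h
    | mul a b h h' => rw [map_mul]; exact add_mem h h'
  have : ∃ a b, a < b ∧ ∀ w, δ ((τ ^ a) w) = δ ((τ ^ b) w) := by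
    obtain ⟨a, b, n, e⟩ := Finite.exists_ne_map_eq_of_infinite
      fun (n : ℕ) (i : Fin m) => (⟨_, hP ((τ ^ n) (.of i))⟩ : P)
    have : δ.comp (τ ^ a) = δ.comp (τ ^ b) := FreeGroup.ext_hom _ _ fun i =>
      congrArg Subtype.val (congrFun e i)
    obtain l | l := lt_or_gt_of_ne n
    exacts [⟨a, b, l, DFunLike.congr_fun this⟩, ⟨b, a, l, DFunLike.congr_fun this.symm⟩]
  obtain ⟨a, b, l, e⟩ := this
  obtain ⟨b, rfl⟩ := Nat.exists_eq_add_of_lt l
  have : ∀ l n w, δ ((τ ^ (a + n + l * (b + 1))) w) = δ ((τ ^ (a + n)) w) := fun l => by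
    induction l with
    | zero => simp
    | succ l ih =>
      intro n w
      rw [← ih, show a + n + (l + 1) * (b + 1) = a + b + 1 + (n + l * (b + 1)) by ring, add_assoc a n,
        pow_add, pow_add τ a]
      exact (e _).symm
  refine ⟨(a + 1) * (b + 1), by positivity, fun w => ?_⟩
  have := this (a + 1) (a * b + b + 1) w
  rw [show a + (a * b + b + 1) = (a + 1) * (b + 1) by ring, pow_add] at this
  simpa using (Submodule.Quotient.eq _).1 (congrArg Multiplicative.toAdd this)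

theorem mp {B U : Type} [Ring B] [Algebra k B] [Ring U] [Algebra k U] (D : Submodule k B)
    (J : ℕ → Submodule k U) (f : B →ₐ[k] U) (hJ : ∀ a b, J a * J b ≤ J (a + b))
    (b : ∀ x ∈ D, f x ∈ J 1) (d : ℕ) : ∀ x ∈ D ^ (d + 1), f x ∈ J (d + 1) := by
  induction d with
  | zero => simpa using b
  | succ d ih =>
    intro x hx
    rw [pow_succ] at hx
    refine Submodule.mul_induction_on hx (fun y hy z hz => ?_) fun y z a b => ?_
    · rw [map_mul]; exact hJ _ _ (Submodule.mul_mem_mul (ih y hy) (b z hz))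
    · rw [map_add]; exact add_mem a b

theorem two_eq {R : Type} [Ring R] [Algebra k R] : (2 : R) = 0 := by
  rw [← map_ofNat (algebraMap k R) 2, show (OfNat.ofNat 2 : k) = 0 from rfl, map_zero]

theorem frob {R : Type} [Ring R] [Algebra k R] {a b : R} (h : Commute a b) (j : ℕ) :
    (a - b) ^ 2 ^ j = a ^ 2 ^ j - b ^ 2 ^ j := by
  induction j with
  | zero => simp
  | succ j ih =>
    have := (h.pow_pow (2 ^ j) (2 ^ j)).eq
    rw [pow_succ, pow_mul, pow_mul, pow_mul, ih]
    generalize a ^ 2 ^ j = x, b ^ 2 ^ j = y at *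
    rw [pow_two, pow_two, pow_two, show (x - y) * (x - y) = x * x - y * y + 2 * (y * y - x * y) by
      rw [sub_mul, mul_sub, mul_sub, ← this, two_mul]; abel, two_eq, zero_mul, add_zero]

theorem core {B : Type} [Ring B] [Algebra k B] (D : Submodule k B) (σ : B →ₐ[k] B)
    (s1 : ∀ x ∈ D, σ x ∈ D) (t1 : ∀ x ∈ D, σ (σ x) - σ x ∈ D ^ 2) (j : ℕ) :
    ∀ x ∈ D, σ^[2 ^ j] (σ^[2 ^ j] x) - σ^[2 ^ j] x ∈ D ^ (2 ^ j + 1) := by
  intro x hx
  have s2 := mp D (fun d => D ^ d) σ (fun a b => (pow_add ..).ge) (by simpa using s1)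
  have t2 : ∀ d, ∀ x ∈ D ^ (d + 1), σ (σ x) - σ x ∈ D ^ (d + 2) := fun d => by
    induction d with
    | zero => simpa using t1
    | succ d ih =>
      intro x hx
      rw [pow_succ] at hx
      refine Submodule.mul_induction_on hx (fun y hy z hz => ?_) fun y z a b => ?_
      · rw [map_mul, map_mul, show σ (σ y) * σ (σ z) - σ y * σ z =
          (σ (σ y) - σ y) * σ (σ z) + σ y * (σ (σ z) - σ z) by rw [sub_mul, mul_sub]; abel]
        refine add_mem ?_ ?_
        · rw [show d + 1 + 2 = d + 2 + 1 by ring, pow_succ]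
          exact Submodule.mul_mem_mul (ih y hy) (s1 _ (s1 _ hz))
        · rw [pow_add]
          exact Submodule.mul_mem_mul (s2 _ _ hy) (t1 z hz)
      · rw [map_add, map_add, add_sub_add_comm]; exact add_mem a b
  set S : Module.End k B := σ.toLinearMap
  have t3 : ∀ n, ((S * S - S) ^ n) x ∈ D ^ (n + 1) := fun n => by
    induction n with
    | zero => simpa using hx
    | succ n ih => rw [pow_succ' (S * S - S), Module.End.mul_apply]; exact t2 n _ ih
  have := t3 (2 ^ j)
  rw [frob ((Commute.refl S).mul_left (.refl S)), ← pow_two, ← pow_mul,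
    two_mul] at this
  rw [← Function.iterate_add_apply]
  simpa [Module.End.pow_apply, S] using this

theorem period {m : ℕ} (τ : Monoid.End (FreeGroup (Fin m))) : ∃ c > 0,
    ∀ (U : Type) [Ring U] [Algebra k U] (J : ℕ → Submodule k U) (θ : FreeGroup (Fin m) →* U) (j : ℕ),
      (∀ a b, J a * J b ≤ J (a + b)) → (∀ w, θ w - 1 ∈ J 1) → J (2 ^ j + 1) = ⊥ →
      ∀ w, θ ((τ ^ (c * 2 ^ j)) ((τ ^ (c * 2 ^ j)) w)) = θ ((τ ^ (c * 2 ^ j)) w) := by
  obtain ⟨c, c0, h⟩ := exists_c τ
  refine ⟨c, c0, fun U _ _ J θ j hJ h1 h0 w => ?_⟩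
  obtain ⟨σ, s1⟩ : ∃ σ : MonoidAlgebra k (FreeGroup (Fin m)) →ₐ[k] MonoidAlgebra k (FreeGroup (Fin m)),
      ∀ w, σ (of k _ w) = of k _ ((τ ^ c) w) := ⟨lift k _ _ ((of k _).comp (τ ^ c)), fun w => lift_of _ _⟩
  obtain ⟨f, f1⟩ : ∃ f : MonoidAlgebra k (FreeGroup (Fin m)) →ₐ[k] U, ∀ w, f (of k _ w) = θ w :=
    ⟨lift k _ _ θ, fun w => lift_of _ _⟩
  have ind : ∀ {V : Type} [AddCommGroup V] [Module k V] (g : MonoidAlgebra k (FreeGroup (Fin m)) →ₗ[k] V)
      (P : Submodule k V), (∀ w, g (of k _ w - 1) ∈ P) → ∀ x ∈ aug _, g x ∈ P :=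
    fun g P d x hx => (Submodule.span_le (p := P.comap g)).2 (by rintro _ ⟨w, rfl⟩; exact d w) hx
  have s3 : ∀ n w, σ^[n] (of k _ w - 1) = of k _ ((τ ^ (c * n)) w) - 1 := fun n => by
    induction n with
    | zero => simp
    | succ n ih =>
      intro w
      rw [Function.iterate_succ_apply', ih, mul_add, add_comm, pow_add, mul_one, map_sub, map_one, s1]
      rfl
  have a1 : ∀ x ∈ aug _, f x ∈ J 1 := ind f.toLinearMap _ fun w => by
    rw [AlgHom.toLinearMap_apply, map_sub, map_one, f1]; exact h1 w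
  have a2 : ∀ x ∈ aug _, σ x ∈ aug _ := ind σ.toLinearMap _ fun w => by
    rw [AlgHom.toLinearMap_apply, map_sub, map_one, s1]; exact mem_aug _
  have a3 : ∀ x ∈ aug _, σ (σ x) - σ x ∈ aug _ ^ 2 := ind ((σ.comp σ).toLinearMap - σ.toLinearMap) _ fun w => by
    simp only [LinearMap.sub_apply, AlgHom.toLinearMap_apply, AlgHom.comp_apply, map_sub, map_one, s1,
      pow_two]
    simpa only [sub_self, sub_zero] using h w
  have b1 := core (aug _) σ a2 a3 j _ (mem_aug w)
  rw [s3 (2 ^ j) w, s3 (2 ^ j) _, sub_sub_sub_cancel_right] at b1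
  have := mp (aug _) J f hJ a1 (2 ^ j) _ b1
  rw [h0, Submodule.mem_bot, map_sub, f1, f1] at this
  exact sub_eq_zero.1 this

end Pool.Agent.H.MP_5fd2c3_al
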