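import Mathlib

set_option autoImplicit false
set_option maxHeartbeats 400000

namespace Pool.Agent.H.MP_5fd2c3_al

abbrev Q := Fin 6 → ℤ

def deg (q : Q) : ℤ := ∑ i, q i
def sh (j : Fin 6) (q : Q) : Q := fun i => q (i - j)
def e (i : Fin 6) : Q := Pi.single i 1

theorem deg_add (q r : Q) : deg (q + r) = deg q + deg r := Finset.sum_add_distrib
theorem deg_sub (q r : Q) : deg (q - r) = deg q - deg r := Finset.sum_sub_distrib _ _
theorem deg_single (i : Fin 6) (n : ℤ) : deg (Pi.single i n) = n := by simp [deg]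
theorem deg_sh (j : Fin 6) (q : Q) : deg (sh j q) = deg q := Equiv.sum_comp (Equiv.subRight j) q
theorem sh_single (j i : Fin 6) (n : ℤ) : sh j (Pi.single i n) = Pi.single (i + j) n := by
  ext l; simp [sh, Pi.single_apply, sub_eq_iff_eq_add]

def T : Equiv.Perm Q where
  toFun q := sh 1 q + e 0
  invFun q := sh (-1) (q - e 0)
  left_inv q := by ext i; simp [sh]
  right_inv q := by ext i; simp [sh]

theorem T_apply (q : Q) : T q = sh 1 q + e 0 := rfl

theorem int_ind {P : ℤ → Prop} (h0 : P 0) (h : ∀ n, P n ↔ P (n + 1)) (n : ℤ) : P n := by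
  induction n using Int.induction_on with
  | zero => exact h0
  | succ n ih => exact (h _).1 ih
  | pred n ih => exact (h _).2 (by simpa using ih)

theorem T_succ (n : ℤ) (q : Q) : (T ^ (n + 1)) q = T ((T ^ n) q) := by rw [add_comm, zpow_one_add]; rfl

theorem deg_T (n : ℤ) (q : Q) : deg ((T ^ n) q) = deg q + n := by
  refine int_ind (P := fun n => deg ((T ^ n) q) = deg q + n) (by simp) (fun n => ?_) n
  rw [T_succ, T_apply, deg_add, deg_sh, e, deg_single]
  omega

theorem T_add (n : ℤ) : ∃ j, ∀ r, (T ^ n) r = (T ^ n) 0 + sh j r := by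
  refine int_ind (P := fun n => ∃ j, ∀ r, (T ^ n) r = (T ^ n) 0 + sh j r) ⟨0, fun r => by ext i; simp [sh]⟩
    (fun n => ⟨fun ⟨j, h⟩ => ⟨j + 1, fun r => ?_⟩, fun ⟨j, h⟩ => ⟨j - 1, fun r => T.injective ?_⟩⟩) n
  · rw [T_succ, T_succ, h r]
    ext i
    simp only [T_apply, sh, Pi.add_apply, sub_sub, add_comm j]
    ring
  · rw [← T_succ, h r, T_succ]
    ext i
    simp only [T_apply, sh, Pi.add_apply, sub_sub, add_sub_cancel]
    ring

variable {G : Type} [Group G]

def X (x : Fin 6 → G) (q : Q) : G := ((List.finRange 6).map fun i => x i ^ q i).prod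
def W (x : Fin 6 → G) (u : G) (q : Q) : G := X x (q - (T ^ deg q) 0) * u ^ deg q
def b (x : Fin 6 → G) (u a : G) (q : Q) : G := W x u q * a * (W x u q)⁻¹

abbrev Ix := Unit ⊕ (Fin 6 × Fin 6) ⊕ Fin 6 ⊕ Fin 6 ⊕ Set.Icc (-1 : Q) 1

def rel (x : Fin 6 → G) (u a : G) : Ix → G
  | .inl _ => x 0
  | .inr (.inl p) => x p.1 * x p.2 * (x p.2 * x p.1)⁻¹
  | .inr (.inr (.inl i)) => u * x i * u⁻¹ * (x (i + 1) * (x 1)⁻¹)⁻¹
  | .inr (.inr (.inr (.inl i))) => b x u a (e (i + 3)) * (b x u a 0 * b x u a (e i))⁻¹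
  | .inr (.inr (.inr (.inr r))) => b x u a 0 * b x u a r.1 * (b x u a r.1 * b x u a 0)⁻¹

theorem map_X {H : Type} [Group H] (f : G →* H) (x : Fin 6 → G) (q : Q) : f (X x q) = X (f ∘ x) q := by
  simp [X, map_list_prod, Function.comp_def]

theorem map_b {H : Type} [Group H] (f : G →* H) (x : Fin 6 → G) (u a : G) (q : Q) :
    f (b x u a q) = b (f ∘ x) (f u) (f a) q := by simp [b, W, map_X]

theorem map_rel {H : Type} [Group H] (f : G →* H) (x : Fin 6 → G) (u a : G) (i : Ix) :
    f (rel x u a i) = rel (f ∘ x) (f u) (f a) i := by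
  rcases i with _ | _ | _ | _ | _ <;> simp [rel, map_b]

structure Top (x : Fin 6 → G) (u : G) : Prop where
  x0 : x 0 = 1
  xc : ∀ i j, Commute (x i) (x j)
  ux : ∀ i, u * x i * u⁻¹ = x (i + 1) * (x 1)⁻¹

variable {x : Fin 6 → G} {u a : G}

theorem X_zero : X x 0 = 1 := by simp [X]

theorem X_single (i : Fin 6) (n : ℤ) : X x (Pi.single i n) = x i ^ n := by
  fin_cases i <;> simp [X, List.finRange_succ]

namespace Top
variable (h : Top x u)
include h

theorem X_add (q r : Q) : X x (q + r) = X x q * X x r := by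
  unfold X
  induction List.finRange 6 with
  | nil => simp
  | cons i l ih =>
    simp only [List.map_cons, List.prod_cons, ih]
    simp only [Pi.add_apply, zpow_add, mul_assoc, mul_right_inj]
    rw [← mul_assoc, ← mul_assoc, (Commute.list_prod_right _ (x i ^ r i) fun y hy => by
      obtain ⟨j, -, rfl⟩ := List.mem_map.1 hy
      exact (h.xc _ _).zpow_zpow _ _).eq]

theorem X_comm (q r : Q) : Commute (X x q) (X x r) := by
  rw [Commute, SemiconjBy, ← h.X_add, ← h.X_add, add_comm]

theorem uX (q : Q) : u * X x q * u⁻¹ = X x (sh 1 q) * x 1 ^ (-deg q) := by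
  induction q using Pi.single_induction with
  | zero => simp [X_zero, deg, show sh 1 0 = 0 from rfl]
  | add q r a b =>
    rw [h.X_add, ← conj_mul, a, b, show sh 1 (q + r) = sh 1 q + sh 1 r from rfl, h.X_add, deg_add, neg_add,
      zpow_add, mul_assoc, mul_assoc, ← mul_assoc (x 1 ^ _), ← X_single, (h.X_comm _ _).eq, mul_assoc]
  | single i n =>
    rw [sh_single, X_single, X_single, ← conj_zpow, h.ux, deg_single, ((h.xc _ _).inv_right).mul_zpow]
    simp

theorem XW (r q : Q) (d : deg r = 0) : X x r * W x u q = W x u (q + r) := by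
  rw [W, W, deg_add, d, add_zero, ← mul_assoc, ← h.X_add]
  congr 2
  ring

theorem uW (q : Q) : u * W x u q = W x u (T q) := by
  have := deg_T 1 q
  rw [zpow_one] at this
  rw [W, W, this, T_succ, ← mul_assoc, mul_inv_eq_iff_eq_mul.1 (h.uX _), deg_sub, deg_T, add_comm (deg q),
    zpow_one_add, mul_assoc]
  simp only [deg, Pi.zero_apply, Finset.sum_const_zero, zero_add, sub_self, neg_zero, zpow_zero, mul_one]
  congr 2
  ext i
  simp [T_apply, sh]

theorem upW (n : ℤ) (q : Q) : u ^ n * W x u q = W x u ((T ^ n) q) := by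
  refine int_ind (P := fun n => u ^ n * W x u q = W x u ((T ^ n) q)) (by simp) (fun n => ?_) n
  rw [T_succ, ← h.uW, add_comm, zpow_one_add, mul_assoc, mul_right_inj]

theorem WW (q : Q) : ∃ j, ∀ r, W x u q * W x u r = W x u (q + sh j r) := by
  obtain ⟨j, k⟩ := T_add (deg q)
  refine ⟨j, fun r => ?_⟩
  rw [W, mul_assoc, h.upW, h.XW _ _ (by rw [deg_sub, deg_T]; simp [deg]), k r]
  congr 1
  ring

theorem Wb (q : Q) : ∃ j, ∀ r, W x u q * b x u a r * (W x u q)⁻¹ = b x u a (q + sh j r) := by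
  obtain ⟨j, k⟩ := h.WW q
  exact ⟨j, fun r => by rw [b, b, ← k]; group⟩

end Top

theorem W_zero : W x u 0 = 1 := by simp [W, deg, X_zero]

theorem four {p q r s : G} (h : Commute (p * q) (r * s)) (a : Commute p r) (b : Commute q r)
    (c : Commute q s) : Commute p s := by
  have := h.eq
  rw [← mul_assoc, ((a.mul_left b).eq), mul_assoc r, mul_assoc r, mul_right_inj, mul_assoc, c.eq,
    ← mul_assoc, ← mul_assoc, mul_left_inj] at this
  exact this

theorem baum {β : Q → G} (h1 : ∀ q i, β (q + e (i + 3)) = β q * β (q + e i))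
    (h2 : ∀ q, ∀ r ∈ Set.Icc (-1 : Q) 1, Commute (β q) (β (q + r))) (q r : Q) : Commute (β q) (β r) := by
  have a : ∀ N (n : Q), n 3 = 0 → n 4 = 0 → n 5 = 0 → (n 0).natAbs + (n 1).natAbs + (n 2).natAbs ≤ N →
      ∀ q, Commute (β q) (β (q + n)) := fun N => by
    induction N with
    | zero =>
      intro n a b c d q
      refine h2 _ _ ⟨fun i => ?_, fun i => ?_⟩ <;> fin_cases i <;> simp <;> omega
    | succ N ih =>
      have : ∀ n : Q, n 3 = 0 → n 4 = 0 → n 5 = 0 → (n 0).natAbs + (n 1).natAbs + (n 2).natAbs ≤ N + 1 →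
          ∀ i, (i = 0 ∨ i = 1 ∨ i = 2) → 2 ≤ n i → ∀ q, Commute (β q) (β (q + n)) := by
        intro n a b c d i hi l q
        have i1 := ih (n - e i) (by rcases hi with rfl | rfl | rfl <;> simpa [e])
          (by rcases hi with rfl | rfl | rfl <;> simpa [e]) (by rcases hi with rfl | rfl | rfl <;> simpa [e])
          (by rcases hi with rfl | rfl | rfl <;> simp [e] <;> omega)
        have i2 := ih (n - e i - e i) (by rcases hi with rfl | rfl | rfl <;> simpa [e])
          (by rcases hi with rfl | rfl | rfl <;> simpa [e]) (by rcases hi with rfl | rfl | rfl <;> simpa [e])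
          (by rcases hi with rfl | rfl | rfl <;> simp [e] <;> omega)
        have i3 := i1 (q + e (i + 3))
        rw [add_right_comm, h1, h1, show q + (n - e i) + e i = q + n by ring] at i3
        have i4 := i2 (q + e i)
        have i5 := i1 (q + e i)
        rw [show q + e i + (n - e i - e i) = q + (n - e i) by ring] at i4
        rw [show q + e i + (n - e i) = q + n by ring] at i5
        exact four i3 (i1 q) i4 i5
      intro n a b c d q
      by_cases k : ∃ i, (i = 0 ∨ i = 1 ∨ i = 2) ∧ 2 ≤ n i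
      · obtain ⟨i, k, l⟩ := k
        exact this n a b c d i k l q
      by_cases k' : ∃ i, (i = 0 ∨ i = 1 ∨ i = 2) ∧ 2 ≤ (-n) i
      · obtain ⟨i, k, l⟩ := k'
        simpa using (this (-n) (by simpa) (by simpa) (by simpa) (by simpa) i k l (q + n)).symm
      simp at k k'
      refine h2 _ _ ⟨fun i => ?_, fun i => ?_⟩ <;> fin_cases i <;> simp <;> omega
  have ind : ∀ (P : G → Prop) (o : Q), (∀ y z, P y → P z → P (y * z)) →
      (∀ n : Q, n 3 = 0 → n 4 = 0 → n 5 = 0 → P (β (o + n))) →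
      ∀ t : Q, 0 ≤ t 3 → 0 ≤ t 4 → 0 ≤ t 5 → P (β (o + t)) := fun P o m s t => by
    obtain ⟨N, hN⟩ : ∃ N : ℕ, t 3 + t 4 + t 5 ≤ N := ⟨_, Int.self_le_toNat _⟩
    induction N generalizing t with
    | zero => intro a b c; exact s t (by omega) (by omega) (by omega)
    | succ N ih =>
      intro a b c
      by_cases k : ∃ i, (i = 0 ∨ i = 1 ∨ i = 2) ∧ 1 ≤ t (i + 3)
      · obtain ⟨i, hi, l⟩ := k
        rw [show o + t = o + (t - e (i + 3)) + e (i + 3) by ring, h1, add_assoc]
        refine m _ _ (ih _ ?_ ?_ ?_ ?_) (ih _ ?_ ?_ ?_ ?_) <;> rcases hi with rfl | rfl | rfl <;>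
          simp [e] at l ⊢ <;> omega
      · simp at k
        exact s t (by omega) (by omega) (by omega)
  have := ind (fun y => Commute y (β (q ⊓ r + (r - q ⊓ r)))) (q ⊓ r) (fun _ _ => Commute.mul_left)
    (fun n a1 a2 a3 => ind (fun y => Commute _ y) (q ⊓ r) (fun _ _ => Commute.mul_right)
      (fun n' b1 b2 b3 => by
        have := a _ (n' - n) (by simp [*]) (by simp [*]) (by simp [*]) le_rfl (q ⊓ r + n)
        rwa [show q ⊓ r + n + (n' - n) = q ⊓ r + n' by ring] at this)
      _ (by simp) (by simp) (by simp)) (q - q ⊓ r) (by simp) (by simp) (by simp)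
  simpa using this

end Pool.Agent.H.MP_5fd2c3_al
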